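import Pool.Agent.Helper7.AFT.Base

/-!
Module T1: contraction with the polarisation.
-/

namespace Pool.Agent.Helper7.AFT

open Module Pool.Agent.GPC Pool.Agent.Helper7 Pool.Agent.Helper39.AF Pool.Agent.Helper71.AF

section bil

variable {V : Type*} [AddCommGroup V] [Module ℂ V] {f : V → V → ℂ}

theorem T1_sum_left (hf : IsBil f) {ι : Type*} (s : Finset ι) (c : ι → ℂ) (u : ι → V) (v : V) :
    f (∑ i ∈ s, c i • u i) v = ∑ i ∈ s, c i * f (u i) v := by
  classical
  induction s using Finset.induction_on with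
  | empty =>
    have h := hf.smul_left 0 (0 : V) v
    rw [zero_smul, zero_mul] at h
    rw [Finset.sum_empty, Finset.sum_empty, h]
  | insert a s ha ih => rw [Finset.sum_insert ha, Finset.sum_insert ha, hf.add_left,
      hf.smul_left, ih]

theorem T1_sum_right (hf : IsBil f) {ι : Type*} (s : Finset ι) (c : ι → ℂ) (u : V) (v : ι → V) :
    f u (∑ i ∈ s, c i • v i) = ∑ i ∈ s, c i * f u (v i) := by
  classical
  induction s using Finset.induction_on with
  | empty =>
    have h := hf.smul_right 0 u (0 : V)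
    rw [zero_smul, zero_mul] at h
    rw [Finset.sum_empty, Finset.sum_empty, h]
  | insert a s ha ih => rw [Finset.sum_insert ha, Finset.sum_insert ha, hf.add_right,
      hf.smul_right, ih]

end bil

theorem T1_expand (X : AbVar) {ι : Type} [Fintype ι] [DecidableEq ι] (e : Basis ι ℂ X.H1)
    (e' : ι → X.H1) (he : IsDual X e e') (u : X.H1) : ∑ i, X.pol u (e' i) • e i = u := by
  have h1 : ∀ i, X.pol u (e' i) = e.repr u i := by
    intro i
    rw [← pData_ψ]
    conv_lhs => rw [← e.sum_repr u]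
    rw [map_sum, LinearMap.sum_apply, Finset.sum_eq_single i]
    · rw [map_smul, LinearMap.smul_apply, pData_ψ, he, if_pos rfl, smul_eq_mul, mul_one]
    · intro j _ hj
      rw [map_smul, LinearMap.smul_apply, pData_ψ, he, if_neg hj, smul_zero]
    · intro h
      exact absurd (Finset.mem_univ _) h
  rw [Finset.sum_congr rfl fun i _ => by rw [h1 i]]
  exact e.sum_repr u

theorem T1_expand' (X : AbVar) {ι : Type} [Fintype ι] [DecidableEq ι] (e : Basis ι ℂ X.H1)
    (e' : ι → X.H1) (he : IsDual X e e') (v : X.H1) : ∑ i, X.pol (e i) v • e' i = v := by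
  rw [← sub_eq_zero]
  refine ndr (pData X) _ fun u => ?_
  rw [map_sub, map_sum, sub_eq_zero]
  conv_rhs => rw [← T1_expand X e e' he u]
  rw [map_sum, LinearMap.sum_apply]
  refine Finset.sum_congr rfl fun i _ => ?_
  rw [map_smul, map_smul, LinearMap.smul_apply, pData_ψ, pData_ψ, smul_eq_mul, smul_eq_mul,
    mul_comm]

theorem sum_dual (X : AbVar) {ι κ : Type} [Fintype ι] [Fintype κ] [DecidableEq ι] [DecidableEq κ]
    (e : Basis ι ℂ X.H1) (e' : ι → X.H1) (he : IsDual X e e') (f : Basis κ ℂ X.H1)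
    (f' : κ → X.H1) (hf : IsDual X f f') (B : X.H1 → X.H1 → ℂ) (hB : IsBil B) :
    ∑ i, B (e i) (e' i) = ∑ j, B (f j) (f' j) := by
  have h1 : ∀ i, B (e i) (e' i) = ∑ j, X.pol (e i) (f' j) * B (f j) (e' i) := by
    intro i
    conv_lhs => rw [← T1_expand X f f' hf (e i)]
    exact T1_sum_left hB _ _ _ _
  have h2 : ∀ j, B (f j) (f' j) = ∑ i, X.pol (e i) (f' j) * B (f j) (e' i) := by
    intro j
    conv_lhs => rw [← T1_expand' X e e' he (f' j)]
    exact T1_sum_right hB _ _ _ _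
  rw [Finset.sum_congr rfl fun i _ => h1 i, Finset.sum_congr rfl fun j _ => h2 j]
  exact Finset.sum_comm

theorem T1_exists_dual (X : AbVar) {ι : Type} [Fintype ι] [DecidableEq ι] (e : Basis ι ℂ X.H1) :
    ∃ e' : ι → X.H1, IsDual X e e' := by
  obtain ⟨Ψ, hΨ⟩ : ∃ Ψ : X.H1 ≃ₗ[ℂ] Module.Dual ℂ X.H1, ∀ u v, Ψ v u = (pData X).ψ u v := by
    refine ⟨LinearMap.linearEquivOfInjective (pData X).ψ.flip ?_ Subspace.dual_finrank_eq.symm,
      fun u v => rfl⟩
    rw [← LinearMap.ker_eq_bot, LinearMap.ker_eq_bot']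
    intro v hv
    apply ndr (pData X)
    intro u
    have := congrArg (fun g => g u) hv
    exact this
  refine ⟨fun j => Ψ.symm (e.coord j), fun i j => ?_⟩
  rw [← pData_ψ, ← hΨ, LinearEquiv.apply_symm_apply, Basis.coord_apply, Basis.repr_self,
    Finsupp.single_apply]

theorem exists_betti_dual (X : AbVar) : ∃ (ι : Type) (_ : Fintype ι) (_ : DecidableEq ι)
    (e : Basis ι ℂ X.H1) (e' : ι → X.H1), IsDual X e e' ∧ (∀ i, X.IsBetti (e i)) ∧
      ∀ i, X.IsBetti ((2 * Real.pi * Complex.I) • e' i) := by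
  classical
  obtain ⟨e', he'⟩ := T1_exists_dual X (pData X).bB
  refine ⟨(pData X).ι, (pData X).fι, Classical.decEq _, (pData X).bB, e', ?_, ?_, ?_⟩
  · intro i j
    rw [he' i j]
  · intro i
    exact (mem_pData_Q X _).1 ((pData X).basis_mem i)
  · intro i
    rw [← mem_pData_Q]
    apply mem_Q_of_coord
    refine coord_mem (pData X).bB (pData X).ψ (algebraMap ℚ ℂ) _ Complex.two_pi_I_ne_zero
      (fun i j => ?_) (ndr (pData X)) _ (fun j => ?_)
    · exact (pData X).hψQ _ ((pData X).basis_mem i) _ ((pData X).basis_mem j)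
    · by_cases h : j = i
      · refine ⟨1, ?_⟩
        rw [map_smul, pData_ψ, he', if_pos h, map_one, smul_eq_mul]
      · refine ⟨0, ?_⟩
        rw [map_smul, pData_ψ, he', if_neg h, map_zero, smul_eq_mul]

theorem exists_deRham_dual (X : AbVar) : ∃ (ι : Type) (_ : Fintype ι) (_ : DecidableEq ι)
    (e : Basis ι ℂ X.H1) (e' : ι → X.H1), IsDual X e e' ∧ (∀ i, X.IsDeRham (e i)) ∧
      ∀ i, X.IsDeRham (e' i) := by
  obtain ⟨e', he'⟩ := T1_exists_dual X (Pi.basisFun ℂ (Fin X.g ⊕ Fin X.g))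
  refine ⟨Fin X.g ⊕ Fin X.g, inferInstance, inferInstance, Pi.basisFun ℂ (Fin X.g ⊕ Fin X.g), e',
    he', ?_, ?_⟩
  · intro i
    rw [Pi.basisFun_apply]
    exact single_deRham X i
  · intro i j
    have h1 := coord_mem (Pi.basisFun ℂ (Fin X.g ⊕ Fin X.g)) (pData X).ψ
      (algebraMap (algebraicClosure ℚ ℂ) ℂ) 1 one_ne_zero
      (fun i j => ?_) (ndr (pData X)) (e' i) (fun j => ?_) j
    · obtain ⟨q, hq⟩ := h1
      rw [Pi.basisFun_repr] at hq
      rw [hq]
      exact mem_algebraicClosure_iff.mp q.2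
    · refine ⟨⟨(pData X).ψ (Pi.single i 1) (Pi.single j 1),
        mem_algebraicClosure_iff.mpr ((pData X).hψalg i j)⟩, ?_⟩
      rw [Pi.basisFun_apply, Pi.basisFun_apply, one_mul]
      rfl
    · by_cases h : j = i
      · refine ⟨1, ?_⟩
        rw [pData_ψ, he', if_pos h, map_one, mul_one]
      · refine ⟨0, ?_⟩
        rw [pData_ψ, he', if_neg h, map_zero, mul_zero]

end Pool.Agent.Helper7.AFT
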